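import Mathlib

/-! Support and first order behaviour of matrix exponentials. -/

set_option autoImplicit false

open Matrix Filter Topology

namespace Pool.Agent.X73.OPG

variable {m : Type*} [Fintype m] [DecidableEq m]

lemma pow_supp (Z : Matrix m m ℝ) (R : m → m → Prop) (hrefl : ∀ i, R i i)
    (htr : ∀ i j k, R i j → R j k → R i k) (hZ : ∀ i j, Z i j ≠ 0 → R i j) (k : ℕ) :
    ∀ i j, (Z ^ k) i j ≠ 0 → R i j := by
  induction k with
  | zero =>
    intro i j h
    rw [pow_zero] at h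
    by_cases hij : i = j
    · subst hij
      exact hrefl i
    · exact absurd (Matrix.one_apply_ne hij) h
  | succ k ih =>
    intro i j h
    rw [pow_succ, Matrix.mul_apply] at h
    obtain ⟨l, -, hl⟩ := Finset.exists_ne_zero_of_sum_ne_zero h
    exact htr i l j (ih i l (left_ne_zero_of_mul hl)) (hZ l j (right_ne_zero_of_mul hl))

section norm

attribute [local instance] Matrix.linftyOpNormedRing Matrix.linftyOpNormedAlgebra

private lemma exp_supp' (Z : Matrix m m ℝ) (R : m → m → Prop) (hrefl : ∀ i, R i i)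
    (htr : ∀ i j k, R i j → R j k → R i k) (hZ : ∀ i j, Z i j ≠ 0 → R i j) (s : ℝ) (i j : m)
    (h : (NormedSpace.exp (s • Z)) i j ≠ 0) : R i j := by
  by_contra hR
  apply h
  have h1 := NormedSpace.exp_series_hasSum_exp' (𝕂 := ℝ) (s • Z)
  have h2 := (Pi.hasSum.1 (Pi.hasSum.1 h1 i)) j
  have h3 : ∀ k : ℕ, ((((k.factorial : ℝ)⁻¹) • (s • Z) ^ k : Matrix m m ℝ)) i j = 0 := by
    intro k
    by_contra hk
    apply hR
    refine pow_supp (s • Z) R hrefl htr (fun i j hij => hZ i j ?_) k i j ?_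
    · rw [Matrix.smul_apply, smul_eq_mul] at hij
      exact right_ne_zero_of_mul hij
    · rw [Matrix.smul_apply, smul_eq_mul] at hk
      exact right_ne_zero_of_mul hk
  have e : (fun k : ℕ => ((((k.factorial : ℝ)⁻¹) • (s • Z) ^ k : Matrix m m ℝ)) i j) =
      fun _ => 0 := funext h3
  have h4 : HasSum (fun _ : ℕ => (0 : ℝ)) ((NormedSpace.exp (s • Z)) i j) := e ▸ h2
  exact h4.unique hasSum_zero

private lemma exp_deriv' (Z : Matrix m m ℝ) (p q : m) :
    HasDerivAt (fun s : ℝ => (NormedSpace.exp (s • Z) : Matrix m m ℝ) p q) (Z p q) 0 := by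
  have h1 := hasDerivAt_exp_smul_const (𝕂 := ℝ) Z (0 : ℝ)
  rw [zero_smul, NormedSpace.exp_zero, one_mul] at h1
  have h2 := (hasDerivAt_pi.1 ((hasDerivAt_pi (φ := fun s : ℝ => (NormedSpace.exp (s • Z) : Matrix m m ℝ))
    (φ' := Z)).1 h1 p)) q
  exact h2

private lemma exp_cont' (Z : Matrix m m ℝ) : Continuous (fun s : ℝ => (NormedSpace.exp (s • Z) : Matrix m m ℝ)) :=
  NormedSpace.exp_continuous.comp (continuous_id.smul continuous_const)

private lemma exp_add' (Z : Matrix m m ℝ) (s t : ℝ) :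
    (NormedSpace.exp ((s + t) • Z) : Matrix m m ℝ) = NormedSpace.exp (s • Z) * NormedSpace.exp (t • Z) := by
  rw [add_smul]
  exact NormedSpace.exp_add_of_commute ((Commute.refl Z).smul_left s |>.smul_right t)

end norm

lemma exp_supp (Z : Matrix m m ℝ) (R : m → m → Prop) (hrefl : ∀ i, R i i)
    (htr : ∀ i j k, R i j → R j k → R i k) (hZ : ∀ i j, Z i j ≠ 0 → R i j) (s : ℝ) (i j : m)
    (h : (NormedSpace.exp (s • Z)) i j ≠ 0) : R i j := exp_supp' Z R hrefl htr hZ s i j h

lemma exp_deriv (Z : Matrix m m ℝ) (p q : m) :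
    HasDerivAt (fun s : ℝ => (NormedSpace.exp (s • Z) : Matrix m m ℝ) p q) (Z p q) 0 :=
  exp_deriv' Z p q

lemma exp_cont (Z : Matrix m m ℝ) :
    Continuous (fun s : ℝ => (NormedSpace.exp (s • Z) : Matrix m m ℝ)) := exp_cont' Z

lemma exp_add (Z : Matrix m m ℝ) (s t : ℝ) :
    (NormedSpace.exp ((s + t) • Z) : Matrix m m ℝ) =
      NormedSpace.exp (s • Z) * NormedSpace.exp (t • Z) := exp_add' Z s t

lemma exp_zero (Z : Matrix m m ℝ) : (NormedSpace.exp ((0 : ℝ) • Z) : Matrix m m ℝ) = 1 := by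
  rw [zero_smul, NormedSpace.exp_zero]

end Pool.Agent.X73.OPG
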