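import Pool.Agent.TH277.MR.Q
import Pool.Agent.X73.OPG.Exp

/-! Ergodic measures and arbitrary one-parameter groups of `∏_v SL(n_v, ℝ)`. -/

set_option autoImplicit false

open Filter Topology Matrix MeasureTheory Set
open scoped ENNReal
open Pool.Agent.TH277.MR

namespace Pool.Agent.X73.OPG

section avg

variable {X : Type*} [MeasurableSpace X] {u : ℝ → X → X}

/-- the average vanishes on a set if and only if almost all orbits avoid it at almost all times -/
lemma avg_zero_iff (hu : Measurable fun p : ℝ × X => u p.1 p.2) (lam : Measure X)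
    [IsFiniteMeasure lam] {E : Set X} (hE : MeasurableSet E) :
    avg u lam E = 0 ↔ ∀ᵐ x ∂lam, (volume : Measure ℝ) {s : ℝ | u s x ∈ E} = 0 := by
  have h1 : avg u lam E = ∫⁻ x, gam {s | u s x ∈ E} ∂lam := by
    unfold avg
    rw [Measure.map_apply hu hE, Measure.prod_apply_symm (hu hE)]
    rfl
  have hm : Measurable fun x => gam {s | u s x ∈ E} :=
    measurable_measure_prodMk_right (hu hE)
  rw [h1, lintegral_eq_zero_iff hm]
  constructor
  · intro h
    filter_upwards [h] with x hx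
    exact ac_gam hx
  · intro h
    filter_upwards [h] with x hx
    exact gam_ac hx

/-- an invariant measure which is seen at almost no times is singular -/
lemma sing_of_inv (hu : Measurable fun p : ℝ × X => u p.1 p.2) {ν rho : Measure X}
    [IsFiniteMeasure rho] (hinv : ∀ s, rho.map (u s) = rho) {E : Set X} (hE : MeasurableSet E)
    (hν : ν Eᶜ = 0) (h : ∀ᵐ x ∂rho, (volume : Measure ℝ) {s : ℝ | u s x ∈ E} = 0) :
    ν ⟂ₘ rho := by
  have h1 := (avg_null hu rho hE).1 ((avg_zero_iff hu rho hE).2 h)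
  obtain ⟨s, hs⟩ := h1.exists
  rw [← Measure.map_apply (meas_u hu s) hE, hinv s] at hs
  exact ⟨Eᶜ, hE.compl, hν, by rwa [compl_compl]⟩

lemma sing_translates (hu : Measurable fun p : ℝ × X => u p.1 p.2) {ν : Measure X}
    [IsFiniteMeasure ν] {E : Set X} (hE : MeasurableSet E)
    (hν : ν Eᶜ = 0) (h : ∀ᵐ x ∂ν, (volume : Measure ℝ) {s : ℝ | u s x ∈ E} = 0) :
    ∀ᵐ s : ℝ, ν ⟂ₘ ν.map (u s) := by
  filter_upwards [(avg_null hu ν hE).1 ((avg_zero_iff hu ν hE).2 h)] with s hs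
  refine ⟨Eᶜ, hE.compl, hν, ?_⟩
  rw [compl_compl, Measure.map_apply (meas_u hu s) hE]
  exact hs

/-- a measure which is not singular to the average -/
lemma exists_of_sing (hu : Measurable fun p : ℝ × X => u p.1 p.2) {ν lam : Measure X}
    [IsFiniteMeasure lam] (h : ν ⟂ₘ avg u lam) :
    ∃ E, MeasurableSet E ∧ ν Eᶜ = 0 ∧
      ∀ᵐ x ∂lam, (volume : Measure ℝ) {s : ℝ | u s x ∈ E} = 0 := by
  obtain ⟨S, hS, h1, h2⟩ := h
  exact ⟨Sᶜ, hS.compl, by rwa [compl_compl], (avg_zero_iff hu lam hS.compl).1 h2⟩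

end avg

variable {I : Type*} [Fintype I] [DecidableEq I] {n : I → ℕ}

variable {X : Type*} [TopologicalSpace X] [PolishSpace X] [MeasurableSpace X] [BorelSpace X]
  [MulAction (PG n) X] [ContinuousSMul (PG n) X] {A : Type*} [Group A] [MulAction A X]
  [MeasurableConstSMul A X] {π : A →* PG n}

/-- `h` is the one-parameter group with generator `Z` -/
def Gen (Z : ∀ v : I, Matrix (Fin (n v)) (Fin (n v)) ℝ) (h : ℝ → PG n) : Prop :=
  ∀ s v, ((h s v : SLR (Fin (n v))) : Matrix (Fin (n v)) (Fin (n v)) ℝ) =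
    NormedSpace.exp (s • Z v)

omit [Fintype I] [DecidableEq I] in
lemma Gen.zero {Z : ∀ v : I, Matrix (Fin (n v)) (Fin (n v)) ℝ} {h : ℝ → PG n} (hh : Gen Z h) :
    h 0 = 1 := by
  funext v
  apply Subtype.ext
  rw [hh 0 v, exp_zero]
  rfl

omit [Fintype I] [DecidableEq I] in
lemma Gen.add {Z : ∀ v : I, Matrix (Fin (n v)) (Fin (n v)) ℝ} {h : ℝ → PG n} (hh : Gen Z h)
    (s t : ℝ) : h (s + t) = h s * h t := by
  funext v
  apply Subtype.ext
  rw [hh (s + t) v, exp_add]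
  rw [← hh s v, ← hh t v]
  rfl

omit [Fintype I] [DecidableEq I] in
lemma Gen.pow {Z : ∀ v : I, Matrix (Fin (n v)) (Fin (n v)) ℝ} {h : ℝ → PG n} (hh : Gen Z h)
    (t : ℝ) (m : ℕ) : h (m * t) = h t ^ m := by
  induction m with
  | zero => simp [hh.zero]
  | succ m ih =>
    rw [pow_succ, ← ih, ← hh.add]
    congr 1
    push_cast
    ring

omit [Fintype I] [DecidableEq I] in
lemma Gen.cont {Z : ∀ v : I, Matrix (Fin (n v)) (Fin (n v)) ℝ} {h : ℝ → PG n} (hh : Gen Z h) :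
    Continuous h := by
  refine continuous_pi fun v => ?_
  rw [continuous_iff_continuousAt]
  intro s
  refine tendsto_sl.2 fun p q => ?_
  have h1 : Continuous fun s : ℝ => (NormedSpace.exp (s • Z v) : Matrix (Fin (n v)) (Fin (n v)) ℝ) p q :=
    (continuous_apply_apply p q).comp (exp_cont (Z v))
  have e : (fun s => (h s v) p q) = fun s : ℝ =>
      (NormedSpace.exp (s • Z v) : Matrix (Fin (n v)) (Fin (n v)) ℝ) p q := by
    funext s
    rw [← hh s v]
  have h2 := h1.tendsto s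
  rw [← e, ← hh s v] at h2
  exact h2

omit [Fintype I] [DecidableEq I] in
lemma Gen.slope {Z : ∀ v : I, Matrix (Fin (n v)) (Fin (n v)) ℝ} {h : ℝ → PG n} (hh : Gen Z h)
    {σ : ℕ → ℝ} (hσ : ∀ k, 0 < σ k) (hσ0 : Tendsto σ atTop (𝓝 0)) (v : I)
    (p q : Fin (n v)) :
    Tendsto (fun k => ((h (σ k) v) p q - (1 : Matrix (Fin (n v)) (Fin (n v)) ℝ) p q) / σ k)
      atTop (𝓝 (Z v p q)) := by
  have h1 := (hasDerivAt_iff_tendsto_slope_zero.1 (exp_deriv (Z v) p q))
  have h2 : Tendsto σ atTop (𝓝[≠] 0) :=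
    tendsto_nhdsWithin_iff.2 ⟨hσ0, Eventually.of_forall fun k => (hσ k).ne'⟩
  have h3 := h1.comp h2
  refine h3.congr fun k => ?_
  simp only [Function.comp_apply, zero_add, smul_eq_mul]
  rw [exp_zero, ← hh (σ k) v, inv_mul_eq_div]

omit [Fintype I] [DecidableEq I] in
/-- **Overlap for small times.** -/
lemma overlap {ν : Measure X} [IsProbabilityMeasure ν]
    {Z : ∀ v : I, Matrix (Fin (n v)) (Fin (n v)) ℝ} {h : ℝ → PG n} (hh : Gen Z h)
    {lam : Measure X} [IsFiniteMeasure lam] (hns : ¬ ν ⟂ₘ avg (fun s x => h s • x) lam) :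
    ∃ c : ℝ, 0 < c ∧ ∀ r : ℕ → ℝ, Tendsto r atTop (𝓝 0) →
      ∀ᶠ k in atTop, Ov c ν (ν.map fun x => h (r k) • x) := by
  have huc : Continuous fun p : ℝ × X => h p.1 • p.2 :=
    (hh.cont.comp continuous_fst).smul continuous_snd
  have hu : Measurable fun p : ℝ × X => h p.1 • p.2 := huc.measurable
  have hfin : IsFiniteMeasure (avg (fun s x => h s • x) lam) := avg_fin lam
  obtain ⟨rho, hrho⟩ : ∃ rho, rho = avg (fun s (x : X) => h s • x) lam := ⟨_, rfl⟩
  rw [← hrho] at hns hfin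
  obtain ⟨κ, hκ⟩ : ∃ κ, κ = ν ⊓ rho := ⟨_, rfl⟩
  have hκ0 : κ ≠ 0 := hκ ▸ inf_ne hns
  have hκ1 : κ ≤ ν := hκ ▸ inf_le_left
  have hκ2 : κ ≤ rho := hκ ▸ inf_le_right
  have hκf : IsFiniteMeasure κ := isFiniteMeasure_of_le ν hκ1
  have hc0 : 0 < κ.real univ := by
    rw [measureReal_def]
    refine ENNReal.toReal_pos ?_ (measure_ne_top _ _)
    rwa [Measure.measure_univ_ne_zero]
  refine ⟨κ.real univ / 2, by linarith, fun r hr => ?_⟩
  have hm : ∀ k, Measurable fun x : X => h (r k) • x := fun k => measurable_const_smul _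
  refine ov_of_AI (h := fun k x => h (r k) • x) hm hκ1 ?_ (by linarith)
  refine AI_of_ac (ρ := rho) (Measure.absolutelyContinuous_of_le hκ2) hm (fun x => ?_) ?_
  · have h1 := (hh.cont.tendsto 0).comp hr
    rw [hh.zero] at h1
    have h2 := h1.smul_const x
    rwa [one_smul] at h2
  · intro ε hε
    have h1 : Tendsto (fun k => |r k| + r k ^ 2) atTop (𝓝 0) := by
      have h2 := hr.abs.add (hr.pow 2)
      simpa using h2
    filter_upwards [h1.eventually (gt_mem_nhds hε)] with k hk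
    have h2 := avg_quasi (u := fun s (x : X) => h s • x) hu
      (fun s t x => by rw [hh.add, mul_smul]) lam (r k)
    rw [← hrho] at h2
    refine h2.trans (Measure.le_iff.2 fun B _ => ?_)
    rw [Measure.smul_apply, Measure.smul_apply, smul_eq_mul, smul_eq_mul]
    gcongr

/-- **The dichotomy.** -/
theorem dich (hπ : DenseAct X π) {ν : Measure X} [IsProbabilityMeasure ν]
    (hν : ∀ a : A, ν.map (fun x => a • x) = ν) (he : Erg (maps A X) ν)
    {Z : ∀ v : I, Matrix (Fin (n v)) (Fin (n v)) ℝ} {h : ℝ → PG n} (hh : Gen Z h)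
    {lam : Measure X} [IsFiniteMeasure lam] (hns : ¬ ν ⟂ₘ avg (fun s x => h s • x) lam) :
    (∀ s, h s ∈ stabG ν) ∧ ∀ v i j, ∀ hij : i ≠ j, Z v i j ≠ 0 → ∀ x : ℝ,
      sg v (tv hij x) ∈ stabG ν := by
  obtain ⟨c, hc, hov⟩ := overlap (ν := ν) hh hns
  have hinvlim : ∀ s : ℝ, Tendsto (fun k : ℕ => s / ((k : ℝ) + 1)) atTop (𝓝 0) := fun s => by
    have h1 := (tendsto_one_div_add_atTop_nhds_zero_nat (𝕜 := ℝ)).const_mul s
    rw [mul_zero] at h1
    refine h1.congr fun k => ?_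
    rw [mul_one_div]
  have hroot : ∀ v i j, ∀ hij : i ≠ j, Z v i j ≠ 0 → ∀ x : ℝ, sg v (tv hij x) ∈ stabG ν := by
    intro v i j hij hZ x
    obtain ⟨k0, hk0⟩ := eventually_atTop.1 (hov _ (hinvlim 1))
    obtain ⟨σ, hσ⟩ : ∃ σ : ℕ → ℝ, σ = fun k => 1 / (((k + k0 : ℕ) : ℝ) + 1) := ⟨_, rfl⟩
    have hσp : ∀ k, 0 < σ k := fun k => by
      rw [hσ]
      positivity
    have hσ0 : Tendsto σ atTop (𝓝 0) := by
      rw [hσ]
      exact (tendsto_add_atTop_iff_nat (f := fun k : ℕ => 1 / ((k : ℝ) + 1)) k0).2 (hinvlim 1)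
    have hM1 : Tendsto (fun k => h (σ k)) atTop (𝓝 1) := by
      have h1 := (hh.cont.tendsto 0).comp hσ0
      rwa [hh.zero] at h1
    refine root_mem hπ hν he hc (fun k => h (σ k)) hM1 (fun k => ?_) hij σ (Z v) hσp hσ0
      (fun p q => hh.slope hσp hσ0 v p q) hZ x
    rw [hσ]
    exact hk0 (k + k0) (by omega)
  refine ⟨fun s => ?_, hroot⟩
  obtain ⟨k0, hk0⟩ := eventually_atTop.1 (hov _ (hinvlim s))
  obtain ⟨τ, hτ⟩ : ∃ τ : ℕ → ℝ, τ = fun k => s / (((k + k0 : ℕ) : ℝ) + 1) := ⟨_, rfl⟩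
  have hτ0 : Tendsto τ atTop (𝓝 0) := by
    rw [hτ]
    exact (tendsto_add_atTop_iff_nat (f := fun k : ℕ => s / ((k : ℝ) + 1)) k0).2 (hinvlim s)
  have hM1 : Tendsto (fun k => h (τ k)) atTop (𝓝 1) := by
    have h1 := (hh.cont.tendsto 0).comp hτ0
    rwa [hh.zero] at h1
  have hev := small_mem hπ hν he hc (fun k => h (τ k)) hM1 (fun k => by
    rw [hτ]
    exact hk0 (k + k0) (by omega)) (fun k v i j hij hne => by
    refine exp_supp (Z v) (RR ν v) (fun i h => absurd rfl h) (RR_trans ν v)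
      (fun i j hZ hij x => hroot v i j hij hZ x) (τ k) i j ?_
    rw [← hh (τ k) v]
    exact hne)
  obtain ⟨k, hk⟩ := hev.exists
  have h1 : h s = h (τ k) ^ (k + k0 + 1) := by
    rw [← hh.pow]
    congr 1
    rw [hτ]
    push_cast
    field_simp
  rw [h1]
  exact (stabG ν).pow_mem hk _

end Pool.Agent.X73.OPG
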